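import Pool.Agent.H83.V.FV
import Pool.Agent.H40.AG.TargetsE
import Pool.Agent.H40.AG.Base

/-!
# Row VFX (Theorem V): the invariant set of the n-side
-/

set_option autoImplicit false

open MeasureTheory ProbabilityTheory Filter Topology Finset
open scoped ENNReal

namespace Pool.Agent.H21.V

open Pool.Agent.H83.V
open Pool.Agent.H67.AG (Inv Av)
open Pool.Agent.H28.LF (LX Xi shX)

theorem eX_meas (hG : T_GDL) (z : Bool) {m : ℕ} (I : Finset (Fin m)) : Measurable (eX z I) := by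
  classical
  let g : Xi → (Fin m → Bool × Bool) × (Fin (3 ^ m) → Bool) :=
    fun ξ => (fun i => (ξ ((i : ℤ) + 1)).1, fun s => (ξ 0).2 s)
  let h : (Fin m → Bool × Bool) × (Fin (3 ^ m) → Bool) → ℝ := fun c =>
    if (fun i => vl z (c.1 i)) ∈
      Gd I (fun s => if hs : s < 3 ^ m then c.2 ⟨s, hs⟩ else false) then 0 else 1
  have hg : Measurable g := by
    refine Measurable.prodMk ?_ ?_
    · exact measurable_pi_lambda _ fun i => (measurable_pi_apply _).fst
    · exact measurable_pi_lambda _ fun s =>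
        (measurable_pi_apply _).comp (measurable_pi_apply (0 : ℤ)).snd
  have hh : Measurable h := measurable_of_countable _
  have he : eX z I = h ∘ g := by
    funext ξ
    have h1 : Gd I (ξ 0).2 =
        Gd I (fun s => if hs : s < 3 ^ m then (g ξ).2 ⟨s, hs⟩ else false) := by
      refine (hG m I).2.2.2 _ _ fun s hs => ?_
      simp only [dif_pos hs, g]
    simp only [eX, Function.comp_apply, h]
    rw [← h1]
  rw [he]
  exact hh.comp hg

theorem eX_bd (z : Bool) {m : ℕ} (I : Finset (Fin m)) (ξ : Xi) : |eX z I ξ| ≤ 1 := by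
  unfold eX
  split_ifs <;> simp

theorem av_meas {Ω : Type} [MeasurableSpace Ω] (T : Ω ≃ᵐ Ω) (n : ℕ) {f : Ω → ℝ}
    (hf : Measurable f) : Measurable (Av T 1 n f) := by
  unfold Av
  refine Measurable.div_const ?_ _
  exact Finset.measurable_sum _ fun l _ => hf.comp (T.measurable.iterate _)

theorem av_shift {Ω : Type} [MeasurableSpace Ω] (T : Ω ≃ᵐ Ω) (n : ℕ) {f : Ω → ℝ}
    (hf : ∀ ω, |f ω| ≤ 1) (ω : Ω) : |Av T 1 n f (T ω) - Av T 1 n f ω| ≤ 2 / n := by
  have h1 : ∑ l ∈ range n, f (T^[1 * l] (T ω)) = ∑ l ∈ range n, f (T^[1 * (l + 1)] ω) := by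
    refine Finset.sum_congr rfl fun l _ => ?_
    rw [one_mul, one_mul, Function.iterate_succ_apply]
  have h2 := Finset.sum_range_succ (fun l => f (T^[1 * l] ω)) n
  have h3 := Finset.sum_range_succ' (fun l => f (T^[1 * l] ω)) n
  have h4 : Av T 1 n f (T ω) - Av T 1 n f ω = (f (T^[1 * n] ω) - f (T^[1 * 0] ω)) / n := by
    unfold Av
    rw [h1, ← sub_div]
    congr 1
    linarith
  rw [h4, abs_div, Nat.abs_cast]
  refine div_le_div_of_nonneg_right ?_ (Nat.cast_nonneg _)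
  refine (abs_sub _ _).trans ?_
  linarith [hf (T^[1 * n] ω), hf (T^[1 * 0] ω)]

/-- the set of points for which the upper limit of the averages is at most `c` -/
def FS {Ω : Type} [MeasurableSpace Ω] (T : Ω ≃ᵐ Ω) (f : Ω → ℝ) (c : ℝ) : Set Ω :=
  {ω | ∀ q : ℚ, c < q → ∃ N : ℕ, ∀ K : ℕ, N ≤ K → Av T 1 K f ω < q}

theorem fs_meas {Ω : Type} [MeasurableSpace Ω] (T : Ω ≃ᵐ Ω) {f : Ω → ℝ} (hf : Measurable f)
    (c : ℝ) : MeasurableSet (FS T f c) := by
  have : FS T f c = ⋂ q : ℚ, ⋂ (_ : c < q), ⋃ N : ℕ, ⋂ K : ℕ, ⋂ (_ : N ≤ K),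
      {ω | Av T 1 K f ω < q} := by
    ext ω
    simp [FS]
  rw [this]
  exact MeasurableSet.iInter fun q => MeasurableSet.iInter fun _ => MeasurableSet.iUnion fun N =>
    MeasurableSet.iInter fun K => MeasurableSet.iInter fun _ =>
      measurableSet_lt (av_meas T K hf) measurable_const

theorem fs_near {Ω : Type} [MeasurableSpace Ω] (T : Ω ≃ᵐ Ω) {f : Ω → ℝ} (c : ℝ) {ω ω' : Ω}
    (h : ∀ n : ℕ, |Av T 1 n f ω' - Av T 1 n f ω| ≤ 2 / n) (hω : ω ∈ FS T f c) :
    ω' ∈ FS T f c := by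
  intro q hq
  obtain ⟨q', h1, h2⟩ := exists_rat_btwn hq
  obtain ⟨N, hN⟩ := hω q' h1
  have hd : (0 : ℝ) < q - q' := sub_pos.2 h2
  obtain ⟨M, hM⟩ := exists_nat_gt (2 / ((q : ℝ) - q'))
  refine ⟨max N M, fun K hK => ?_⟩
  have h3 := hN K (le_trans (le_max_left _ _) hK)
  have h4 : (M : ℝ) ≤ K := by exact_mod_cast le_trans (le_max_right _ _) hK
  have h5 : 2 / ((q : ℝ) - q') < K := lt_of_lt_of_le hM h4
  have hK0 : (0 : ℝ) < K := lt_of_le_of_lt (by positivity) h5
  have h6 : 2 / (K : ℝ) < q - q' := by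
    rw [div_lt_iff₀ hd] at h5
    rw [div_lt_iff₀ hK0]
    linarith
  have h7 := (abs_le.1 (h K)).2
  linarith

theorem fs_inv {Ω : Type} [MeasurableSpace Ω] (T : Ω ≃ᵐ Ω) {f : Ω → ℝ}
    (hf : ∀ ω, |f ω| ≤ 1) (c : ℝ) : T ⁻¹' FS T f c = FS T f c := by
  ext ω
  constructor
  · intro h
    refine fs_near T c (fun n => ?_) h
    rw [abs_sub_comm]
    exact av_shift T n hf ω
  · intro h
    exact fs_near T c (fun n => av_shift T n hf ω) h

theorem fs_of_tendsto {Ω : Type} [MeasurableSpace Ω] (T : Ω ≃ᵐ Ω) {f : Ω → ℝ} {c a : ℝ} {ω : Ω}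
    (h : Tendsto (fun n => Av T 1 n f ω) atTop (𝓝 a)) : ω ∈ FS T f c ↔ a ≤ c := by
  constructor
  · intro h1
    by_contra h2
    rw [not_le] at h2
    obtain ⟨q, h3, h4⟩ := exists_rat_btwn h2
    obtain ⟨N, hN⟩ := h1 q h3
    have h5 : a ≤ q := by
      refine le_of_tendsto h ?_
      filter_upwards [eventually_ge_atTop N] with K hK
      exact (hN K hK).le
    linarith
  · intro h1 q hq
    have h2 : a < q := lt_of_le_of_lt h1 hq
    obtain ⟨N, hN⟩ := eventually_atTop.1 (h.eventually (gt_mem_nhds h2))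
    exact ⟨N, hN⟩

theorem pf_VFX (hB : Pool.Agent.H40.AG.T_BK) (hG : T_GDL) : T_VFX := by
  intro z m I ρ η PX _ hmp hη hK
  have hem := eX_meas hG z I
  have heb := eX_bd z I
  refine ⟨FS shX (eX z I) (3 / 2 * η), fs_meas shX hem _, fs_inv shX heb _, ?_, ?_⟩
  · -- the measure of the set
    have hbk := hB Xi PX shX 1 (eX z I) hmp hem ⟨1, heb⟩
    let A : ℕ → Set Xi := fun K => {ξ | Av shX 1 K (eX z I) ξ ≤ η}
    have hA : ∀ K, MeasurableSet (A K) := fun K =>
      measurableSet_le (av_meas shX K hem) measurable_const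
    let B : ℕ → Set Xi := fun n => ⋃ K : ℕ, A (n + 1 + K)
    have hBm : ∀ n, MeasurableSet (B n) := fun n => MeasurableSet.iUnion fun K => hA _
    have hBa : Antitone B := by
      intro n n' hnn ξ hξ
      obtain ⟨K, hK'⟩ := Set.mem_iUnion.1 hξ
      refine Set.mem_iUnion.2 ⟨n' + K - n, ?_⟩
      have : n + 1 + (n' + K - n) = n' + 1 + K := by omega
      rw [this]
      exact hK'
    have hlim := tendsto_measure_iInter_atTop (μ := PX)
      (fun n => (hBm n).nullMeasurableSet) hBa ⟨0, measure_ne_top _ _⟩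
    have hge : ∀ n, ENNReal.ofReal ρ ≤ PX (B n) := by
      intro n
      have h1 : ρ ≤ PX.real (A (n + 1 + 0)) := hK _ (by omega)
      have h2 : PX (A (n + 1 + 0)) ≤ PX (B n) :=
        measure_mono (Set.subset_iUnion (fun K => A (n + 1 + K)) 0)
      refine le_trans ?_ h2
      exact ENNReal.ofReal_le_of_le_toReal h1
    have h3 : ENNReal.ofReal ρ ≤ PX (⋂ n, B n) := ge_of_tendsto' hlim hge
    have h4 : PX (⋂ n, B n) ≤ PX (FS shX (eX z I) (3 / 2 * η)) := by
      apply measure_mono_ae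
      filter_upwards [hbk] with ξ hξ
      intro hmem
      change ξ ∈ FS shX (eX z I) (3 / 2 * η)
      rw [fs_of_tendsto shX hξ]
      have hinf : ∃ᶠ K in atTop, Av shX 1 K (eX z I) ξ ≤ η := by
        rw [frequently_atTop]
        intro n
        obtain ⟨K, hK'⟩ := Set.mem_iUnion.1 (Set.mem_iInter.1 hmem n)
        exact ⟨n + 1 + K, by omega, hK'⟩
      have h5 := le_of_tendsto_of_frequently hξ hinf
      linarith
    have h6 := h3.trans h4
    have h7 : PX (FS shX (eX z I) (3 / 2 * η)) ≠ ⊤ := measure_ne_top _ _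
    exact (ENNReal.ofReal_le_iff_le_toReal h7).1 h6
  · intro ν hν hνmp hνF
    have hbk := hB Xi ν shX 1 (eX z I) hνmp hem ⟨1, heb⟩
    have hin : ∀ᵐ ξ ∂ν, ξ ∈ FS shX (eX z I) (3 / 2 * η) := by
      refine (mem_ae_iff_prob_eq_one (fs_meas shX hem _)).2 ?_
      rw [measureReal_def] at hνF
      rw [← ENNReal.toReal_one] at hνF
      exact (ENNReal.toReal_eq_toReal_iff' (measure_ne_top _ _) ENNReal.one_ne_top).1 hνF
    have hle : ∀ᵐ ξ ∂ν, (ν[eX z I | Inv shX 1]) ξ ≤ 3 / 2 * η := by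
      filter_upwards [hbk, hin] with ξ h1 h2
      exact (fs_of_tendsto shX h1).1 h2
    have h1 : ∫ ξ, (ν[eX z I | Inv shX 1]) ξ ∂ν = ∫ ξ, eX z I ξ ∂ν :=
      integral_condExp (Pool.Agent.H40.AG.inv_le shX 1)
    rw [← h1]
    have h2 : ∫ ξ, (ν[eX z I | Inv shX 1]) ξ ∂ν ≤ ∫ _, 3 / 2 * η ∂ν :=
      integral_mono_ae integrable_condExp (integrable_const _) hle
    simpa using h2

end Pool.Agent.H21.V
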